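import Pool.Agent.Lib.MP_0a9719_co_FR.LowX

/-! MP_0a9719_co, lower bound with `r` classes: the complete `r`-partite graph with classes of
`g * s` vertices, `g` disjoint copies of a gadget graph `L` on `s` vertices in every class. -/

namespace MP_0a9719_co

/-- the complete multipartite graph with classes `M` -/
def crossG (r : ℕ) (M : Type*) : SimpleGraph (Fin r × M) where
  Adj x y := x.1 ≠ y.1
  symm := ⟨fun _ _ h => h.symm⟩
  loopless := ⟨fun _ h => h rfl⟩

theorem crossG_edges (r : ℕ) (M : Type*) [Finite M] :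
    (crossG r M).edgeSet.ncard = r.choose 2 * Nat.card M ^ 2 := by
  classical
  have : Fintype M := Fintype.ofFinite M
  let e : M ≃ Fin (Nat.card M) := Finite.equivFin M
  let i : crossG r M ≃g SimpleGraph.completeEquipartiteGraph r (Nat.card M) :=
    { toEquiv := Equiv.prodCongr (Equiv.refl _) e
      map_rel_iff' := by
        intro a b
        simp [crossG, SimpleGraph.completeEquipartiteGraph] }
  have h1 : (crossG r M).edgeSet.ncard =
      (SimpleGraph.completeEquipartiteGraph r (Nat.card M)).edgeSet.ncard := by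
    rw [← Nat.card_coe_set_eq, ← Nat.card_coe_set_eq]
    exact Nat.card_congr i.mapEdgeSet
  rw [h1, Set.ncard_eq_toFinset_card']
  exact SimpleGraph.card_edgeFinset_completeEquipartiteGraph

/-- the host -/
def hostR (r g : ℕ) {s : ℕ} (L : SimpleGraph (Fin s)) :
    SimpleGraph (Fin r × (Fin g × Fin s)) where
  Adj x y := x.1 ≠ y.1 ∨ (x.1 = y.1 ∧ x.2.1 = y.2.1 ∧ L.Adj x.2.2 y.2.2)
  symm := ⟨fun _ _ h => h.elim (fun h => Or.inl h.symm)
    (fun h => Or.inr ⟨h.1.symm, h.2.1.symm, h.2.2.symm⟩)⟩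
  loopless := ⟨fun _ h => h.elim (fun h => h rfl) (fun h => L.loopless.irrefl _ h.2.2)⟩

theorem lowR {W : Type*} [Finite W] (A : W → W → Prop) (r k : ℕ)
    (h : ∀ χ : W → Fin r, ∃ v, k ≤ {u | χ u = χ v ∧ A v u}.ncard)
    (s : ℕ) (L : SimpleGraph (Fin s)) (g : ℕ) :
    ∃ H : SimpleGraph (Fin r × (Fin g × Fin s)),
      (goodOr L k).ncard ^ (r * g) * 2 ^ (r.choose 2 * (g * s) ^ 2) ≤ numFree A H := by
  classical
  refine ⟨hostR r g L, ?_⟩
  let M := Fin g × Fin s
  let Φ : ({O : (Fin r × M) → (Fin r × M) → Prop | IsOr (crossG r M) O} ×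
      (Fin r × Fin g → goodOr L k)) → ((Fin r × M) → (Fin r × M) → Prop) :=
    fun p x y => p.1.1 x y ∨ (x.1 = y.1 ∧ x.2.1 = y.2.1 ∧ (p.2 (x.1, x.2.1)).1 x.2.2 y.2.2)
  have hcr : ∀ (O : (Fin r × M) → (Fin r × M) → Prop), IsOr (crossG r M) O →
      ∀ x y, O x y → x.1 ≠ y.1 := by
    intro O hO x y hxy
    exact (hO x y).1.2 (Or.inl hxy)
  have hinj : Function.Injective Φ := by
    rintro ⟨⟨O, hO⟩, o⟩ ⟨⟨O', hO'⟩, o'⟩ heq
    have h1 : O = O' := by
      funext x y
      apply propext
      have h2 := congrFun (congrFun heq x) y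
      simp only [Φ, eq_iff_iff] at h2
      by_cases hxy : x.1 = y.1
      · exact ⟨fun h3 => absurd hxy (hcr O hO x y h3), fun h3 => absurd hxy (hcr O' hO' x y h3)⟩
      · constructor
        · intro h3
          rcases h2.1 (Or.inl h3) with h4 | h4
          · exact h4
          · exact absurd h4.1 hxy
        · intro h3
          rcases h2.2 (Or.inl h3) with h4 | h4
          · exact h4
          · exact absurd h4.1 hxy
    have h2 : o = o' := by
      funext i
      apply Subtype.ext
      funext a b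
      apply propext
      have h3 := congrFun (congrFun heq (i.1, (i.2, a))) (i.1, (i.2, b))
      simp only [Φ, eq_iff_iff] at h3
      constructor
      · intro h4
        rcases h3.1 (Or.inr ⟨trivial, trivial, h4⟩) with h5 | h5
        · exact absurd (Eq.refl i.1) (hcr O' hO' (i.1, (i.2, a)) (i.1, (i.2, b)) h5)
        · exact h5.2.2
      · intro h4
        rcases h3.2 (Or.inr ⟨trivial, trivial, h4⟩) with h5 | h5
        · exact absurd (Eq.refl i.1) (hcr O hO (i.1, (i.2, a)) (i.1, (i.2, b)) h5)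
        · exact h5.2.2
    subst h1 h2
    rfl
  have hsub : Set.range Φ ⊆ {D | IsOr (hostR r g L) D ∧ ¬ Contains A D} := by
    rintro D ⟨⟨⟨O, hO⟩, o⟩, rfl⟩
    have hO2 : IsOr (crossG r M) O := hO
    refine ⟨?_, ?_⟩
    · intro x y
      have hxy := hO2 x y
      have hor := fun i => (o i).2.1
      constructor
      · constructor
        · rintro (h1 | ⟨h1, h2, h3⟩)
          · rcases hxy.1.1 h1 with h2 | h2
            · exact Or.inl (Or.inl h2)
            · exact Or.inr (Or.inl h2)
          · rcases (hor (x.1, x.2.1) x.2.2 y.2.2).1.1 h3 with h4 | h4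
            · exact Or.inl (Or.inr ⟨h1, h2, h4⟩)
            · refine Or.inr (Or.inr ⟨h1.symm, h2.symm, ?_⟩)
              rw [← h1, ← h2]
              exact h4
        · rintro ((h1 | ⟨h1, h2, h3⟩) | (h1 | ⟨h1, h2, h3⟩))
          · exact Or.inl (hcr O hO _ _ h1)
          · exact Or.inr ⟨h1, h2, (hor _ _ _).1.2 (Or.inl h3)⟩
          · exact Or.inl (hcr O hO _ _ h1).symm
          · exact Or.inr ⟨h1.symm, h2.symm, (hor _ _ _).1.2 (Or.inr h3)⟩
      · rintro ⟨h1 | ⟨h1, h2, h3⟩, h4 | ⟨h4, h5, h6⟩⟩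
        · exact hxy.2 ⟨h1, h4⟩
        · exact absurd h4.symm (hcr O hO _ _ h1)
        · exact absurd h1.symm (hcr O hO _ _ h4)
        · rw [← h1, ← h2] at h6
          exact (hor _ _ _).2 ⟨h3, h6⟩
    · rintro ⟨f, hf, hA⟩
      obtain ⟨v, hv⟩ := h (fun w => (f w).1)
      have h1 : ∀ u ∈ {u | (f u).1 = (f v).1 ∧ A v u},
          (f v).2.1 = (f u).2.1 ∧ (o ((f v).1, (f v).2.1)).1 (f v).2.2 (f u).2.2 := by
        intro u hu
        rcases hA v u hu.2 with h2 | h2
        · exact absurd hu.1.symm (hcr O hO _ _ h2)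
        · exact h2.2
      have h2 : {u | (f u).1 = (f v).1 ∧ A v u}.ncard ≤
          {w | (o ((f v).1, (f v).2.1)).1 (f v).2.2 w}.ncard := by
        apply Set.ncard_le_ncard_of_injOn (fun u => (f u).2.2)
        · intro u hu
          exact (h1 u hu).2
        · intro u hu u' hu' heq
          apply hf
          refine Prod.ext (hu.1.trans hu'.1.symm) (Prod.ext ?_ heq)
          exact (h1 u hu).1.symm.trans (h1 u' hu').1
      exact absurd (hv.trans h2) (not_le.2 ((o _).2.2 _))
  have hcard : (Set.range Φ).ncard =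
      (goodOr L k).ncard ^ (r * g) * 2 ^ (r.choose 2 * (g * s) ^ 2) := by
    rw [← Set.image_univ, Set.ncard_image_of_injective _ hinj, Set.ncard_univ, Nat.card_prod,
      Nat.card_coe_set_eq, ncard_or, crossG_edges]
    have h1 : Nat.card (Fin r × Fin g → goodOr L k) = (goodOr L k).ncard ^ (r * g) := by
      rw [Nat.card_fun, Nat.card_coe_set_eq]
      simp
    have h2 : Nat.card M = g * s := by simp [M]
    rw [h1, h2, mul_comm]
  rw [← hcard]
  exact Set.ncard_le_ncard hsub (Set.toFinite _)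

end MP_0a9719_co
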