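import Pool.Agent.Lib.MP_0a9719_co_FR.FinW
import Pool.Agent.Lib.MP_0a9719_co_RR.LowR

/-! MP_0a9719_co, `r` classes: the comparison of the two bounds. -/

namespace MP_0a9719_co

theorem two_choose (r : ℕ) : 2 * r.choose 2 + r = r * r := by
  induction r with
  | zero => simp
  | succ r ih =>
    have h1 : (r + 1).choose 2 = r + r.choose 2 := by
      rw [Nat.choose_succ_succ' r 1, Nat.choose_one_right]
    rw [h1]
    have h2 : (r + 1) * (r + 1) = r * r + 2 * r + 1 := by ring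
    omega

theorem half_bound (r m E C c2 κ : ℕ) (hr : 0 < r) (hc : 2 * c2 + r = r * r)
    (h : r * (2 * E) + (r * m) ^ 2 ≤ r * (r * m) ^ 2 + r * (κ * (r * m)) + C) :
    2 * E ≤ 2 * (c2 * m ^ 2) + κ * r * m + C := by
  have h1 : r * (r * m) ^ 2 = r * (2 * (c2 * m ^ 2)) + (r * m) ^ 2 := by
    have h2 : r * (r * m) ^ 2 = r * (r * r) * m ^ 2 := by ring
    rw [h2, ← hc]
    have h3 : (r * m) ^ 2 = r * r * m ^ 2 := by ring
    rw [h3]
    ring
  have h4 : r * (κ * (r * m)) = r * (κ * r * m) := by ring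
  have h5 : 1 * C ≤ r * C := Nat.mul_le_mul_right C hr
  have h6 : r * (2 * E) ≤ r * (2 * (c2 * m ^ 2) + κ * r * m + C) := by
    rw [mul_add, mul_add]
    rw [h1, h4] at h
    omega
  exact Nat.le_of_mul_le_mul_left h6 hr

theorem main_R {W : Type*} [Finite W] (F : SimpleGraph W) (A : W → W → Prop) (hA : IsOr F A)
    (r k : ℕ) (hr : 1 ≤ r) (hk : 2 ≤ k)
    (hind : ∃ C : ℕ, ∀ (V : Type) [Fintype V] (G : SimpleGraph V), F.Free G →
      r * (2 * G.edgeSet.ncard) + (Fintype.card V) ^ 2 ≤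
        r * (Fintype.card V) ^ 2 + r * ((k - 1) * Fintype.card V) + C)
    (h : ∀ χ : W → Fin r, ∃ v, k ≤ {u | χ u = χ v ∧ A v u}.ncard) : PropertyP F := by
  classical
  obtain ⟨s, hs, L, hL⟩ := gadget k hk
  have hlow := lowR A r k h s L
  generalize (goodOr L k).ncard = N at hL hlow
  obtain ⟨C, hC⟩ := hind
  refine criterion F A hA fun n₀ => ?_
  obtain ⟨g, hg⟩ : ∃ g, g = n₀ + 2 ^ ((k - 1) * s) * 2 ^ C := ⟨_, rfl⟩
  have hg1 : n₀ ≤ g := by
    rw [hg]
    exact Nat.le_add_right _ _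
  have hg2 : 2 ^ ((k - 1) * s) * 2 ^ C ≤ g := by
    rw [hg]
    exact Nat.le_add_left _ _
  obtain ⟨H, hH⟩ := hlow g
  refine ⟨r * (g * s), ?_, Fin r × (Fin g × Fin s), inferInstance, H, by simp,
    Or.inr fun H' hH' => ?_⟩
  · exact hg1.trans ((Nat.le_mul_of_pos_right g hs).trans (Nat.le_mul_of_pos_left _ hr))
  have h5 := hC (Fin r × (Fin g × Fin s)) H' hH'
  have h6 : Fintype.card (Fin r × (Fin g × Fin s)) = r * (g * s) := by simp
  rw [h6] at h5
  have h7 := half_bound r (g * s) _ C (r.choose 2) (k - 1) hr (two_choose r) h5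
  have h8 := grow (2 ^ ((k - 1) * s)) (N ^ 2) C (by positivity) hL (r * g)
    (hg2.trans (Nat.le_mul_of_pos_left _ hr))
  have h9 : (2 ^ H'.edgeSet.ncard) ^ 2 < (numFree A H) ^ 2 := by
    calc (2 ^ H'.edgeSet.ncard) ^ 2 = 2 ^ (2 * H'.edgeSet.ncard) := by
          rw [← pow_mul, mul_comm]
      _ ≤ 2 ^ (2 * (r.choose 2 * (g * s) ^ 2) + (k - 1) * r * (g * s) + C) :=
          Nat.pow_le_pow_right (by norm_num) h7
      _ = ((2 ^ ((k - 1) * s)) ^ (r * g) * 2 ^ C) * 2 ^ (2 * (r.choose 2 * (g * s) ^ 2)) := by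
          rw [← pow_mul, show (k - 1) * r * (g * s) = (k - 1) * s * (r * g) by ring, pow_add,
            pow_add]
          ring
      _ < (N ^ 2) ^ (r * g) * 2 ^ (2 * (r.choose 2 * (g * s) ^ 2)) :=
          Nat.mul_lt_mul_of_pos_right h8 (by positivity)
      _ = (N ^ (r * g) * 2 ^ (r.choose 2 * (g * s) ^ 2)) ^ 2 := by
          generalize r * g = a
          generalize r.choose 2 * (g * s) ^ 2 = b
          rw [mul_pow, ← pow_mul, ← pow_mul, ← pow_mul, mul_comm 2 a, mul_comm 2 b]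
      _ ≤ (numFree A H) ^ 2 := Nat.pow_le_pow_left hH 2
  exact lt_of_pow_lt_pow_left₀ 2 (Nat.zero_le _) h9

end MP_0a9719_co
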