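import Pool.Agent.Lib.MP_0a9719_co_RR.ClsR

/-! MP_0a9719_co, `r` classes: from a complete `r`-partite subgraph with large constant classes to
classes of linear size. -/

namespace MP_0a9719_co_RR

open Finset

variable {V : Type*} [DecidableEq V] [Fintype V]

theorem blocks_r {W : Type*} [Fintype W] {r : ℕ} (F : SimpleGraph W) (G : SimpleGraph V)
    (κ : W → Fin r) (c : W) (K : Finset W) (hκ : StarCol F κ c K) (hF : F.Free G)
    (B : Fin r → Finset V) (T q k m n : ℕ) (hr : 0 < r) (hq : Fintype.card W = q)
    (hK : K.card ≤ k) (hn : Fintype.card V = n) (hB : ∀ i, (B i).card = T)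
    (hBB : ∀ i j, i ≠ j → ∀ x ∈ B i, ∀ y ∈ B j, G.Adj x y)
    (hdeg : ∀ v, r * (nn G univ v).card < n) (hT : (k + 1) * m + q + (k + 1) ≤ T) :
    ∃ (A : Fin r → Finset V) (b : ℕ), m * b ≤ 2 * q * n ∧
      (∀ i j, i ≠ j → Disjoint (A i) (A j)) ∧
      (∀ i j, i ≠ j → ∀ x ∈ A i, (nn G (A j) x).card ≤ b + r * k + k) ∧
      ∀ i, n ≤ r * ((A i).card + (b + r * k)) := by
  classical
  have h1 : ∀ v, ∃ i, (nb G (B i) v).card < 2 * q := by
    intro v
    by_contra hcon
    push Not at hcon
    refine hF (many_in_all F G κ c K hκ B 0 q hq ?_ v (fun i => by simpa using hcon i))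
    intro i j hij x hx
    rw [Nat.le_zero, card_eq_zero, eq_empty_iff_forall_notMem]
    intro y hy
    exact (mem_nn.1 hy).2 (hBB i j hij x hx y (mem_nn.1 hy).1)
  choose cl hcl using h1
  obtain ⟨good, hgood⟩ : ∃ good : V → Prop, ∀ v, good v ↔
      ∀ j, j ≠ cl v → (nn G (B j) v).card ≤ m := ⟨fun v => _, fun v => Iff.rfl⟩
  obtain ⟨bad, hbad⟩ : ∃ bad : Finset V, bad = univ.filter (fun v => ¬ good v) := ⟨_, rfl⟩
  -- the number of bad vertices
  have hbadc : m * bad.card ≤ 2 * q * n := by
    have h2 : ∑ v, ∑ j, (nn G (B j) v).card = ∑ j, ∑ y ∈ B j, (nn G univ y).card := by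
      rw [sum_comm]
      refine sum_congr rfl fun j _ => ?_
      have h3 : ∀ v, (nn G (B j) v).card = ∑ y ∈ B j, if G.Adj v y then 0 else 1 := by
        intro v
        have h4 : nn G (B j) v = (B j).filter (fun y => ¬ G.Adj v y) := by
          ext; simp [mem_nn]
        rw [h4, card_filter]
        refine sum_congr rfl fun y _ => ?_
        by_cases h : G.Adj v y <;> simp [h]
      have h5 : ∀ y, (nn G univ y).card = ∑ v, if G.Adj v y then 0 else 1 := by
        intro y
        have h4 : nn G univ y = (univ : Finset V).filter (fun v => ¬ G.Adj y v) := by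
          ext; simp [mem_nn]
        rw [h4, card_filter]
        refine sum_congr rfl fun v _ => ?_
        by_cases h : G.Adj v y
        · simp [h, h.symm]
        · have h' : ¬ G.Adj y v := fun h' => h h'.symm
          simp [h, h']
      rw [sum_congr rfl (fun v _ => h3 v), sum_comm]
      exact sum_congr rfl (fun y _ => (h5 y).symm)
    have h3 : r * ∑ v, ∑ j, (nn G (B j) v).card ≤ r * (T * n) := by
      rw [h2, mul_sum]
      calc ∑ j, r * ∑ y ∈ B j, (nn G univ y).card ≤ ∑ j : Fin r, T * n := by
            refine sum_le_sum fun j _ => ?_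
            rw [mul_sum]
            refine (sum_le_card_nsmul (B j) _ n (fun y _ => (hdeg y).le)).trans ?_
            rw [smul_eq_mul, hB]
        _ = r * (T * n) := by simp
    have h4 : ∑ v, ∑ j, (nn G (B j) v).card ≤ T * n := Nat.le_of_mul_le_mul_left h3 hr
    have h5 : ∀ v, T + (if good v then 0 else m) ≤ ∑ j, (nn G (B j) v).card + 2 * q := by
      intro v
      have h6 := nb_nn G (B (cl v)) v
      rw [hB] at h6
      have h7 := hcl v
      split_ifs with hg
      · have h8 : (nn G (B (cl v)) v).card ≤ ∑ j, (nn G (B j) v).card :=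
          single_le_sum (f := fun j => (nn G (B j) v).card) (fun _ _ => Nat.zero_le _)
            (mem_univ _)
        omega
      · rw [hgood] at hg
        push Not at hg
        obtain ⟨j, hj, hj2⟩ := hg
        have h8 : (nn G (B j) v).card + (nn G (B (cl v)) v).card ≤
            ∑ j, (nn G (B j) v).card := by
          have h9 := sum_pair (f := fun j => (nn G (B j) v).card) hj
          rw [← h9]
          exact sum_le_sum_of_subset (subset_univ _)
        omega
    have h6 : ∑ v, (T + (if good v then 0 else m)) ≤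
        ∑ v, (∑ j, (nn G (B j) v).card + 2 * q) := sum_le_sum fun v _ => h5 v
    rw [sum_add_distrib, sum_add_distrib, sum_const, sum_const, smul_eq_mul, smul_eq_mul,
      card_univ, hn] at h6
    have h7 : ∑ v, (if good v then 0 else m) = m * bad.card := by
      rw [hbad, ← sum_filter_add_sum_filter_not univ (fun v => good v)]
      rw [sum_congr rfl (g := fun _ => 0) (fun v hv => by rw [if_pos (mem_filter.1 hv).2])]
      rw [sum_congr rfl (s₁ := univ.filter (fun v => ¬ good v)) (g := fun _ => m)
        (fun v hv => by rw [if_neg (mem_filter.1 hv).2])]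
      simp [mul_comm]
    rw [h7] at h6
    have h8 : n * (2 * q) = 2 * q * n := by ring
    have h9 : n * T = T * n := mul_comm _ _
    rw [h8, h9] at h6
    generalize 2 * q * n = z1 at *
    generalize T * n = z2 at *
    generalize m * bad.card = z3 at *
    omega
  obtain ⟨A, hA⟩ : ∃ A : Fin r → Finset V, ∀ i, A i = univ.filter (fun v => good v ∧ cl v = i) :=
    ⟨fun i => _, fun i => rfl⟩
  have memA : ∀ i v, v ∈ A i ↔ good v ∧ cl v = i := by
    intro i v
    rw [hA, mem_filter]
    simp
  -- inner degrees
  have hin : ∀ i, ∀ x ∈ A i, (nb G (A i) x).card < k := by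
    intro i x hx
    by_contra hcon
    push Not at hcon
    obtain ⟨S, hS, hSc⟩ := exists_subset_card_eq hcon
    have hSm : ∀ y ∈ S, y ∈ A i ∧ G.Adj x y := fun y hy => mem_nb.1 (hS hy)
    obtain ⟨U, hU⟩ : ∃ U, U = insert x S := ⟨_, rfl⟩
    have hUc : U.card ≤ k + 1 := by
      rw [hU]
      exact (card_insert_le x S).trans (by omega)
    have hUA : ∀ u ∈ U, u ∈ A i := by
      intro u hu
      rw [hU, mem_insert] at hu
      rcases hu with rfl | hu
      · exact hx
      · exact (hSm u hu).1
    obtain ⟨C, hC⟩ : ∃ C : Fin r → Finset V, ∀ j, C j = if j = i then B j \ U else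
        (B j).filter (fun y => ∀ u ∈ U, G.Adj u y) := ⟨fun j => _, fun j => rfl⟩
    have hCB : ∀ j, C j ⊆ B j := by
      intro j
      rw [hC]
      split_ifs
      · exact sdiff_subset
      · exact filter_subset _ _
    refine hF (emb_r F G κ c K hκ i C ?_ (fun a b hab y hy z hz =>
      hBB a b hab y (hCB a hy) z (hCB b hz)) x S (hK.trans hSc.ge)
      (fun y hy => (hSm y hy).2) ?_ ?_ ?_ ?_)
    · intro j
      rw [hq]
      by_cases hj : j = i
      · rw [hC, if_pos hj]
        have h2 := le_card_sdiff U (B j)
        have h3 := hB j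
        generalize (k + 1) * m = z at *
        omega
      · rw [hC, if_neg hj]
        have h2 : B j ⊆ (B j).filter (fun y => ∀ u ∈ U, G.Adj u y) ∪
            U.biUnion (fun u => nn G (B j) u) := by
          intro y hy
          rw [mem_union, mem_filter, mem_biUnion]
          by_cases h : ∀ u ∈ U, G.Adj u y
          · exact Or.inl ⟨hy, h⟩
          · push Not at h
            obtain ⟨u, hu, h⟩ := h
            exact Or.inr ⟨u, hu, mem_nn.2 ⟨hy, h⟩⟩
        have h3 := (card_le_card h2).trans (card_union_le _ _)
        have h4 : (U.biUnion (fun u => nn G (B j) u)).card ≤ (k + 1) * m := by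
          refine card_biUnion_le.trans ((sum_le_card_nsmul _ _ m ?_).trans ?_)
          · intro u hu
            obtain ⟨h5, h6⟩ := (memA i u).1 (hUA u hu)
            exact (hgood u).1 h5 j (by rw [h6]; exact hj)
          · rw [smul_eq_mul]
            exact Nat.mul_le_mul_right _ hUc
        rw [hB] at h3
        generalize (k + 1) * m = z at *
        omega
    · intro h
      rw [hC, if_pos rfl] at h
      exact (mem_sdiff.1 h).2 (by rw [hU]; exact mem_insert_self _ _)
    · intro y hy h
      rw [hC, if_pos rfl] at h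
      exact (mem_sdiff.1 h).2 (by rw [hU]; exact mem_insert_of_mem hy)
    · intro j hj y hy
      rw [hC, if_neg hj] at hy
      exact (mem_filter.1 hy).2 x (by rw [hU]; exact mem_insert_self _ _)
    · intro z hz j hj y hy
      rw [hC, if_neg hj] at hy
      exact (mem_filter.1 hy).2 z (by rw [hU]; exact mem_insert_of_mem hz)
  have hup : ∀ i, r * (A i).card ≤ n + r * k := by
    intro i
    rcases (A i).eq_empty_or_nonempty with h | ⟨x, hx⟩
    · rw [h, card_empty, mul_zero]
      exact Nat.zero_le _
    · have h2 := nb_nn G (A i) x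
      have h3 := hin i x hx
      have h4 := nn_mono (G := G) (subset_univ (A i)) x
      have h5 := hdeg x
      have h6 : (A i).card ≤ k + (nn G univ x).card := by omega
      have h7 : r * (A i).card ≤ r * (k + (nn G univ x).card) := Nat.mul_le_mul_left _ h6
      rw [mul_add] at h7
      omega
  have hlow : ∀ i, n ≤ r * ((A i).card + (bad.card + r * k)) := by
    intro i
    have h2 : n ≤ bad.card + ∑ j, (A j).card := by
      have h3 : (univ : Finset V) ⊆ bad ∪ univ.biUnion A := by
        intro v _
        rw [mem_union, mem_biUnion]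
        by_cases h : good v
        · exact Or.inr ⟨cl v, mem_univ _, (memA _ _).2 ⟨h, rfl⟩⟩
        · exact Or.inl (by rw [hbad, mem_filter]; exact ⟨mem_univ _, h⟩)
      have h4 := (card_le_card h3).trans (card_union_le _ _)
      rw [card_univ, hn] at h4
      exact h4.trans (Nat.add_le_add_left card_biUnion_le _)
    have h3 : ∑ j, (A j).card = (A i).card + ∑ j ∈ univ.erase i, (A j).card :=
      (add_sum_erase univ (fun j => (A j).card) (mem_univ i)).symm
    have h4 : r * ∑ j ∈ univ.erase i, (A j).card ≤ (r - 1) * (n + r * k) := by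
      rw [mul_sum]
      refine (sum_le_card_nsmul _ _ (n + r * k) (fun j _ => hup j)).trans ?_
      rw [smul_eq_mul, card_erase_of_mem (mem_univ i), card_univ, Fintype.card_fin]
    rw [h3] at h2
    have h5 : r * n ≤ r * (bad.card + ((A i).card + ∑ j ∈ univ.erase i, (A j).card)) :=
      Nat.mul_le_mul_left _ h2
    obtain ⟨r', rfl⟩ : ∃ r', r = r' + 1 := ⟨r - 1, by omega⟩
    simp only [Nat.add_sub_cancel] at h4
    have h6 : r' * ((r' + 1) * k) ≤ (r' + 1) * ((r' + 1) * k) :=
      Nat.mul_le_mul_right _ (Nat.le_succ _)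
    have h7 : (r' + 1) * (bad.card + ((A i).card + ∑ j ∈ univ.erase i, (A j).card)) =
        (r' + 1) * ((A i).card + bad.card) +
          (r' + 1) * ∑ j ∈ univ.erase i, (A j).card := by ring
    have h8 : (r' + 1) * ((A i).card + (bad.card + (r' + 1) * k)) =
        (r' + 1) * ((A i).card + bad.card) + (r' + 1) * ((r' + 1) * k) := by ring
    have h9 : r' * (n + (r' + 1) * k) = r' * n + r' * ((r' + 1) * k) := by ring
    have h10 : (r' + 1) * n = r' * n + n := by ring
    rw [h7, h10] at h5
    rw [h9] at h4
    rw [h8]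
    omega
  refine ⟨A, bad.card, hbadc, ?_, ?_, hlow⟩
  · intro i j hij
    rw [disjoint_left]
    intro v hv hv2
    exact hij (((memA i v).1 hv).2.symm.trans ((memA j v).1 hv2).2)
  · intro i j hij x hx
    have h2 : (nn G (A j) x).card + (nn G (A i) x).card ≤ (nn G univ x).card := by
      rw [← card_union_of_disjoint]
      · refine card_le_card ?_
        intro y hy
        rw [mem_union, mem_nn, mem_nn] at hy
        rw [mem_nn]
        rcases hy with hy | hy
        · exact ⟨mem_univ _, hy.2⟩
        · exact ⟨mem_univ _, hy.2⟩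
      · rw [disjoint_left]
        intro y hy hy2
        exact hij (((memA i y).1 (mem_nn.1 hy2).1).2.symm.trans
          ((memA j y).1 (mem_nn.1 hy).1).2)
    have h3 := nb_nn G (A i) x
    have h4 := hin i x hx
    have h5 := hdeg x
    have h6 := hlow i
    have h7 : r * ((nn G (A j) x).card + (A i).card) ≤ r * ((nn G univ x).card + k) :=
      Nat.mul_le_mul_left _ (by omega)
    rw [mul_add, mul_add] at h7
    rw [mul_add] at h6
    have h8 : r * (nn G (A j) x).card < r * (bad.card + r * k) + r * k := by omega
    rw [← mul_add] at h8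
    exact (Nat.lt_of_mul_lt_mul_left h8).le

end MP_0a9719_co_RR
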