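import Pool.Agent.Lib.MP_0a9719_co_RR.EmbR

/-! MP_0a9719_co, `r` classes: the final partition and its number of edges. -/

namespace MP_0a9719_co_RR

open Finset

variable {V : Type*} [DecidableEq V] [Fintype V]

theorem classes_r {W : Type*} [Fintype W] {r : ℕ} (F : SimpleGraph W) (G : SimpleGraph V)
    (κ : W → Fin r) (c : W) (K : Finset W) (hκ : StarCol F κ c K) (hF : F.Free G)
    (A : Fin r → Finset V) (μ q k a δ D : ℕ) (hq : Fintype.card W = q) (hK : K.card ≤ k)
    (hA : ∀ i j, i ≠ j → ∀ x ∈ A i, (nn G (A j) x).card ≤ μ) (ha : ∀ i, a ≤ (A i).card)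
    (hv : ∀ v, (nn G univ v).card ≤ a + δ) (hdisj : ∀ i j, i ≠ j → Disjoint (A i) (A j))
    (hD : D = 2 * q + r * (2 * q * μ))
    (hbig : q + r * (q * μ) + (k + 1) * (δ + D) + (k + 1) ≤ a) :
    ∃ cl : V → Fin r, ∀ v, (nb G (univ.filter (fun w => cl w = cl v)) v).card < k := by
  have h1 : ∀ v, ∃ i, (nb G (A i) v).card < D := by
    intro v
    by_contra hcon
    push Not at hcon
    exact hF (many_in_all F G κ c K hκ A μ q hq hA v (fun i => hD ▸ hcon i))
  choose cl hcl using h1
  have hmiss : ∀ v j, j ≠ cl v → (nn G (A j) v).card ≤ δ + D := by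
    intro v j hj
    have h2 : (nn G (A j) v).card + (nn G (A (cl v)) v).card ≤ (nn G univ v).card := by
      rw [← card_union_of_disjoint]
      · refine card_le_card ?_
        intro y hy
        rw [mem_union, mem_nn, mem_nn] at hy
        rw [mem_nn]
        rcases hy with hy | hy
        · exact ⟨mem_univ _, hy.2⟩
        · exact ⟨mem_univ _, hy.2⟩
      · refine (hdisj j (cl v) hj).mono ?_ ?_
        · exact fun y hy => (mem_nn.1 hy).1
        · exact fun y hy => (mem_nn.1 hy).1
    have h3 := nb_nn G (A (cl v)) v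
    have h4 := ha (cl v)
    have h5 := hcl v
    have h6 := hv v
    omega
  refine ⟨cl, fun v => ?_⟩
  by_contra hcon
  push Not at hcon
  obtain ⟨S, hS, hSc⟩ := exists_subset_card_eq hcon
  have hSm : ∀ x ∈ S, cl x = cl v ∧ G.Adj v x := by
    intro x hx
    have h2 := mem_nb.1 (hS hx)
    exact ⟨(mem_filter.1 h2.1).2, h2.2⟩
  obtain ⟨U, hU⟩ : ∃ U, U = insert v S := ⟨_, rfl⟩
  have hUc : U.card ≤ k + 1 := by
    rw [hU]
    exact (card_insert_le v S).trans (by omega)
  have hUcl : ∀ u ∈ U, cl u = cl v := by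
    intro u hu
    rw [hU, mem_insert] at hu
    rcases hu with rfl | hu
    · rfl
    · exact (hSm u hu).1
  classical
  obtain ⟨Z, hZ⟩ : ∃ Z : Fin r → Finset V, ∀ j, Z j = if j = cl v then A j \ U else
      (A j).filter (fun y => ∀ u ∈ U, G.Adj u y) := ⟨fun j => _, fun j => rfl⟩
  have hZA : ∀ j, Z j ⊆ A j := by
    intro j
    rw [hZ]
    split_ifs
    · exact sdiff_subset
    · exact filter_subset _ _
  have hprod : (k + 1) * (δ + D) + (k + 1) = (k + 1) * (δ + D) + (k + 1) := rfl
  have hZc : ∀ j, q + r * (q * μ) ≤ (Z j).card := by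
    intro j
    by_cases hj : j = cl v
    · rw [hZ, if_pos hj]
      have h2 := le_card_sdiff U (A j)
      have h3 := ha j
      generalize (k + 1) * (δ + D) = z at *
      omega
    · rw [hZ, if_neg hj]
      have h2 : A j ⊆ (A j).filter (fun y => ∀ u ∈ U, G.Adj u y) ∪
          U.biUnion (fun u => nn G (A j) u) := by
        intro y hy
        rw [mem_union, mem_filter, mem_biUnion]
        by_cases h : ∀ u ∈ U, G.Adj u y
        · exact Or.inl ⟨hy, h⟩
        · push Not at h
          obtain ⟨u, hu, h⟩ := h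
          exact Or.inr ⟨u, hu, mem_nn.2 ⟨hy, h⟩⟩
      have h3 := (card_le_card h2).trans (card_union_le _ _)
      have h4 : (U.biUnion (fun u => nn G (A j) u)).card ≤ (k + 1) * (δ + D) := by
        refine card_biUnion_le.trans ((sum_le_card_nsmul _ _ (δ + D) ?_).trans ?_)
        · intro u hu
          exact hmiss u j (by rw [hUcl u hu]; exact hj)
        · rw [smul_eq_mul]
          exact Nat.mul_le_mul_right _ hUc
      have h5 := ha j
      generalize (k + 1) * (δ + D) = z at *
      omega
  obtain ⟨C, hC1, hC2, hC3⟩ := greedy_r G r q μ Z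
    (fun i j hij x hx => (nn_mono (hZA j) x).trans (hA i j hij x (hZA i hx))) hZc
  refine hF (emb_r F G κ c K hκ (cl v) C (fun i => (hq.trans (hC2 i).symm).le) hC3 v S
    (hK.trans hSc.ge) (fun x hx => (hSm x hx).2) ?_ ?_ ?_ ?_)
  · intro h
    have h2 := hC1 _ h
    rw [hZ, if_pos rfl] at h2
    exact (mem_sdiff.1 h2).2 (by rw [hU]; exact mem_insert_self _ _)
  · intro x hx h
    have h2 := hC1 _ h
    rw [hZ, if_pos rfl] at h2
    exact (mem_sdiff.1 h2).2 (by rw [hU]; exact mem_insert_of_mem hx)
  · intro j hj y hy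
    have h2 := hC1 _ hy
    rw [hZ, if_neg hj] at h2
    exact (mem_filter.1 h2).2 v (by rw [hU]; exact mem_insert_self _ _)
  · intro x hx j hj y hy
    have h2 := hC1 _ hy
    rw [hZ, if_neg hj] at h2
    exact (mem_filter.1 h2).2 x (by rw [hU]; exact mem_insert_of_mem hx)

theorem sum_r {r : ℕ} (G : SimpleGraph V) (k : ℕ) (hk : 1 ≤ k) (cl : V → Fin r)
    (hcl : ∀ v, (nb G (univ.filter (fun w => cl w = cl v)) v).card < k) :
    r * ∑ v, (nb G univ v).card + (Fintype.card V) ^ 2 ≤
      r * (Fintype.card V) ^ 2 + r * ((k - 1) * Fintype.card V) := by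
  classical
  let a : Fin r → ℕ := fun i => (univ.filter (fun w => cl w = i)).card
  have h1 : ∀ v, (nb G univ v).card + a (cl v) ≤ (k - 1) + Fintype.card V := by
    intro v
    have h2 : nb G univ v ⊆ nb G (univ.filter (fun w => cl w = cl v)) v ∪
        univ.filter (fun w => ¬ cl w = cl v) := by
      intro y hy
      rw [mem_nb] at hy
      rw [mem_union, mem_nb, mem_filter, mem_filter]
      by_cases h : cl y = cl v
      · exact Or.inl ⟨⟨mem_univ _, h⟩, hy.2⟩
      · exact Or.inr ⟨mem_univ _, h⟩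
    have h3 := (card_le_card h2).trans (card_union_le _ _)
    have h4 := card_filter_add_card_filter_not (s := (univ : Finset V)) (fun w => cl w = cl v)
    rw [card_univ] at h4
    have h5 := hcl v
    have h6 : a (cl v) = (univ.filter (fun w => cl w = cl v)).card := rfl
    omega
  have h2 : ∑ v, (nb G univ v).card + ∑ v, a (cl v) ≤
      (Fintype.card V) * ((k - 1) + Fintype.card V) := by
    rw [← sum_add_distrib]
    refine (sum_le_card_nsmul univ _ _ (fun v _ => h1 v)).trans ?_
    rw [smul_eq_mul, card_univ]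
  have h3 : ∑ v, a (cl v) = ∑ i, a i ^ 2 := by
    rw [← sum_fiberwise (s := (univ : Finset V)) (g := cl)]
    refine sum_congr rfl fun i _ => ?_
    rw [sum_congr rfl (g := fun _ => a i) (fun v hv => by rw [(mem_filter.1 hv).2]), sum_const,
      smul_eq_mul, pow_two]
  have h4 : ∑ i, a i = Fintype.card V := by
    have := card_eq_sum_card_fiberwise (s := (univ : Finset V)) (t := univ) (f := cl)
      (fun _ _ => mem_univ _)
    rw [card_univ] at this
    exact this.symm
  have h5 : (Fintype.card V) ^ 2 ≤ r * ∑ i, a i ^ 2 := by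
    rw [← h4]
    have := sq_sum_le_card_mul_sum_sq (s := (univ : Finset (Fin r))) (f := a)
    simpa using this
  rw [h3] at h2
  have h6 : r * (∑ v, (nb G univ v).card + ∑ i, a i ^ 2) ≤
      r * ((Fintype.card V) * ((k - 1) + Fintype.card V)) := Nat.mul_le_mul_left _ h2
  have h7 : r * ((Fintype.card V) * ((k - 1) + Fintype.card V)) =
      r * (Fintype.card V) ^ 2 + r * ((k - 1) * Fintype.card V) := by ring
  rw [h7, mul_add] at h6
  omega

end MP_0a9719_co_RR
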