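import Mathlib

/-! MP_0a9719_co, `r` classes: graphs `F` which become `r`-colourable when at most `k` edges at one
vertex are deleted; embedding, greedy choice and the two structure steps. -/

namespace MP_0a9719_co_RR

open Finset

/-- non-neighbours of `x` in `Z` -/
noncomputable def nn {V : Type*} (G : SimpleGraph V) (Z : Finset V) (x : V) : Finset V := by
  classical exact Z.filter (fun y => ¬ G.Adj x y)

/-- neighbours of `x` in `Z` -/
noncomputable def nb {V : Type*} (G : SimpleGraph V) (Z : Finset V) (x : V) : Finset V := by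
  classical exact Z.filter (fun y => G.Adj x y)

theorem mem_nn {V : Type*} {G : SimpleGraph V} {Z : Finset V} {x y : V} :
    y ∈ nn G Z x ↔ y ∈ Z ∧ ¬ G.Adj x y := by
  classical
  simp [nn]

theorem mem_nb {V : Type*} {G : SimpleGraph V} {Z : Finset V} {x y : V} :
    y ∈ nb G Z x ↔ y ∈ Z ∧ G.Adj x y := by
  classical
  simp [nb]

theorem nb_nn {V : Type*} (G : SimpleGraph V) (Z : Finset V) (x : V) :
    (nb G Z x).card + (nn G Z x).card = Z.card := by
  classical
  have h1 : nb G Z x = Z.filter (fun y => G.Adj x y) := by ext; simp [mem_nb]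
  have h2 : nn G Z x = Z.filter (fun y => ¬ G.Adj x y) := by ext; simp [mem_nn]
  rw [h1, h2]
  exact card_filter_add_card_filter_not _

theorem nn_mono {V : Type*} {G : SimpleGraph V} {Z Z' : Finset V} (h : Z ⊆ Z') (x : V) :
    (nn G Z x).card ≤ (nn G Z' x).card :=
  card_le_card fun _ hy => mem_nn.2 ⟨h (mem_nn.1 hy).1, (mem_nn.1 hy).2⟩

/-- the hypothesis on `F`: `κ` colours `F` with `r` colours, all monochromatic edges go from `c` to
`K` -/
def StarCol {W : Type*} {r : ℕ} (F : SimpleGraph W) (κ : W → Fin r) (c : W) (K : Finset W) : Prop :=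
  c ∉ K ∧ ∀ s t, F.Adj s t → κ s = κ t → (s = c ∧ t ∈ K) ∨ (t = c ∧ s ∈ K)

theorem emb_r {W V : Type*} [Fintype W] {r : ℕ} (F : SimpleGraph W) (G : SimpleGraph V)
    (κ : W → Fin r) (c : W) (K : Finset W) (hκ : StarCol F κ c K) (i₀ : Fin r)
    (C : Fin r → Finset V) (hC : ∀ i, Fintype.card W ≤ (C i).card)
    (hCC : ∀ i j, i ≠ j → ∀ x ∈ C i, ∀ y ∈ C j, G.Adj x y) (v : V) (S : Finset V)
    (hS : K.card ≤ S.card) (hvS : ∀ x ∈ S, G.Adj v x) (hv : v ∉ C i₀)
    (hSC : ∀ x ∈ S, x ∉ C i₀) (hvC : ∀ j, j ≠ i₀ → ∀ y ∈ C j, G.Adj v y)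
    (hSCj : ∀ x ∈ S, ∀ j, j ≠ i₀ → ∀ y ∈ C j, G.Adj x y) : F.IsContained G := by
  classical
  obtain ⟨hcK, hκ⟩ := hκ
  -- relabel the colours so that `c` has colour `i₀`
  let σ : Equiv.Perm (Fin r) := Equiv.swap (κ c) i₀
  let κ' : W → Fin r := fun w => σ (κ w)
  have hκ'c : κ' c = i₀ := Equiv.swap_apply_left _ _
  have hκ' : ∀ s t, F.Adj s t → κ' s = κ' t → (s = c ∧ t ∈ K) ∨ (t = c ∧ s ∈ K) :=
    fun s t hst h => hκ s t hst (σ.injective h)
  let K' : Finset W := K.filter (fun w => κ' w = i₀)
  have hK' : ∀ w, w ∈ K' ↔ w ∈ K ∧ κ' w = i₀ := fun w => mem_filter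
  have hKc : K'.card ≤ S.card := (card_filter_le _ _).trans hS
  obtain ⟨h⟩ : Nonempty (K' ↪ S) := by
    apply Function.Embedding.nonempty_of_card_le
    simpa using hKc
  have hg : ∀ i, Nonempty (W ↪ C i) := by
    intro i
    apply Function.Embedding.nonempty_of_card_le
    simpa using hC i
  have g : ∀ i, W ↪ C i := fun i => (hg i).some
  let D : Fin r → Set V := fun i => {y | y ∈ C i ∨ (i = i₀ ∧ (y = v ∨ y ∈ S))}
  have hDD : ∀ i j, i ≠ j → ∀ x ∈ D i, ∀ y ∈ D j, G.Adj x y := by
    intro i j hij x hx y hy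
    rcases hx with hx | ⟨rfl, hx⟩
    · rcases hy with hy | ⟨rfl, hy⟩
      · exact hCC i j hij x hx y hy
      · rcases hy with rfl | hy
        · exact (hvC i hij x hx).symm
        · exact (hSCj y hy i hij x hx).symm
    · rcases hy with hy | ⟨rfl, hy⟩
      · rcases hx with rfl | hx
        · exact hvC j hij.symm y hy
        · exact hSCj x hx j hij.symm y hy
      · exact absurd rfl hij
  let φ : W → V := fun w => if w = c then v else if hw : w ∈ K' then h ⟨w, hw⟩ else g (κ' w) w
  have hφc : φ c = v := by simp [φ]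
  have hcK' : c ∉ K' := fun h1 => hcK ((hK' c).1 h1).1
  have hφK : ∀ w (hw : w ∈ K'), φ w = h ⟨w, hw⟩ := by
    intro w hw
    have h1 : w ≠ c := fun h1 => hcK' (h1 ▸ hw)
    simp [φ, h1, hw]
  have hφo : ∀ w, w ≠ c → w ∉ K' → φ w = g (κ' w) w := by
    intro w h1 h2
    simp [φ, h1, h2]
  have hφD : ∀ w, φ w ∈ D (κ' w) := by
    intro w
    by_cases h1 : w = c
    · rw [h1, hφc]
      exact Or.inr ⟨hκ'c, Or.inl rfl⟩
    · by_cases h2 : w ∈ K'
      · rw [hφK w h2]
        exact Or.inr ⟨((hK' w).1 h2).2, Or.inr (h _).2⟩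
      · rw [hφo w h1 h2]
        exact Or.inl (g _ _).2
  have hgC : ∀ i w, (g i w : V) ∈ C i := fun i w => (g i w).2
  have hhS : ∀ x, (h x : V) ∈ S := fun x => (h x).2
  refine ⟨⟨⟨φ, ?_⟩, ?_⟩⟩
  · intro s t hst
    by_cases h1 : κ' s = κ' t
    · rcases hκ' s t hst h1 with ⟨rfl, h2⟩ | ⟨rfl, h2⟩
      · have h3 : t ∈ K' := (hK' t).2 ⟨h2, h1.symm.trans hκ'c⟩
        rw [hφc, hφK t h3]
        exact hvS _ (hhS _)
      · have h3 : s ∈ K' := (hK' s).2 ⟨h2, h1.trans hκ'c⟩
        rw [hφc, hφK s h3]
        exact (hvS _ (hhS _)).symm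
    · exact hDD _ _ h1 _ (hφD s) _ (hφD t)
  · intro s t hst
    have hst' : φ s = φ t := hst
    by_cases h1 : κ' s = κ' t
    · by_cases hs : s = c
      · by_cases ht : t = c
        · rw [hs, ht]
        · by_cases ht2 : t ∈ K'
          · rw [hs, hφc, hφK t ht2] at hst'
            exact absurd hst' (hvS _ (hhS _)).ne
          · rw [hs, hφc, hφo t ht ht2] at hst'
            rw [hs, hκ'c] at h1
            rw [← h1] at hst'
            exact absurd (hst' ▸ hgC i₀ t) hv
      · by_cases hs2 : s ∈ K'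
        · have h2 := ((hK' s).1 hs2).2
          by_cases ht : t = c
          · rw [ht, hφc, hφK s hs2] at hst'
            exact absurd hst'.symm (hvS _ (hhS _)).ne
          · by_cases ht2 : t ∈ K'
            · rw [hφK s hs2, hφK t ht2] at hst'
              exact congrArg Subtype.val (h.injective (Subtype.ext hst'))
            · rw [hφK s hs2, hφo t ht ht2, ← h1, h2] at hst'
              exact absurd (hst' ▸ hgC i₀ t) (hSC _ (hhS _))
        · by_cases ht : t = c
          · rw [ht, hκ'c] at h1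
            rw [ht, hφc, hφo s hs hs2, h1] at hst'
            exact absurd (hst' ▸ hgC i₀ s) hv
          · by_cases ht2 : t ∈ K'
            · have h2 := ((hK' t).1 ht2).2
              rw [hφK t ht2, hφo s hs hs2, h1, h2] at hst'
              exact absurd (hst' ▸ hgC i₀ s) (hSC _ (hhS _))
            · rw [hφo s hs hs2, hφo t ht ht2, h1] at hst'
              exact (g _).injective (Subtype.ext hst')
    · have h2 := hDD _ _ h1 _ (hφD s) _ (hφD t)
      rw [hst'] at h2
      exact absurd h2 (G.loopless.irrefl _)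

variable {V : Type*} [DecidableEq V]

theorem greedy_r (G : SimpleGraph V) (r q μ : ℕ) (Z : Fin r → Finset V)
    (hZ : ∀ i j, i ≠ j → ∀ x ∈ Z i, (nn G (Z j) x).card ≤ μ)
    (hc : ∀ i, q + r * (q * μ) ≤ (Z i).card) :
    ∃ C : Fin r → Finset V, (∀ i, C i ⊆ Z i) ∧ (∀ i, (C i).card = q) ∧
      ∀ i j, i ≠ j → ∀ x ∈ C i, ∀ y ∈ C j, G.Adj x y := by
  have key : ∀ m, m ≤ r → ∃ C : Fin r → Finset V, (∀ i, C i ⊆ Z i) ∧
      (∀ i, i.val < m → (C i).card = q) ∧ (∀ i, (C i).card ≤ q) ∧
      ∀ i j, i ≠ j → ∀ x ∈ C i, ∀ y ∈ C j, G.Adj x y := by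
    intro m
    induction m with
    | zero =>
      intro _
      exact ⟨fun _ => ∅, fun _ => empty_subset _, fun i hi => absurd hi (Nat.not_lt_zero _),
        fun _ => by simp, fun i j _ x hx => absurd hx (notMem_empty x)⟩
    | succ m ih =>
      intro hm
      obtain ⟨C, hC1, hC2, hC3, hC4⟩ := ih (Nat.le_of_succ_le hm)
      obtain ⟨i, hi⟩ : ∃ i : Fin r, i.val = m := ⟨⟨m, hm⟩, rfl⟩
      by_cases hfull : (C i).card = q
      · refine ⟨C, hC1, fun j hj => ?_, hC3, hC4⟩
        rcases Nat.lt_succ_iff_lt_or_eq.1 hj with h | h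
        · exact hC2 j h
        · have : j = i := Fin.ext (h.trans hi.symm)
          rw [this]; exact hfull
      obtain ⟨U, hU⟩ : ∃ U, U = univ.biUnion (fun j : Fin r => if j = i then ∅ else
        (C j).biUnion (fun x => nn G (Z i) x)) := ⟨_, rfl⟩
      have hUc : U.card ≤ r * (q * μ) := by
        rw [hU]
        refine card_biUnion_le.trans ((sum_le_card_nsmul _ _ (q * μ) ?_).trans ?_)
        · intro j _
          split_ifs with hji
          · simp
          · refine card_biUnion_le.trans ((sum_le_card_nsmul _ _ μ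
              (fun x hx => hZ j i hji x (hC1 j hx))).trans ?_)
            rw [smul_eq_mul]
            exact Nat.mul_le_mul_right _ (hC3 j)
        · simp
      have h1 := le_card_sdiff U (Z i)
      have h2 := hc i
      obtain ⟨T, hT, hTc⟩ := exists_subset_card_eq (s := Z i \ U) (n := q) (by omega)
      have hTm : ∀ x ∈ T, x ∈ Z i ∧ x ∉ U := fun x hx => mem_sdiff.1 (hT hx)
      have hTadj : ∀ x ∈ T, ∀ j, j ≠ i → ∀ y ∈ C j, G.Adj y x := by
        intro x hx j hji y hy
        by_contra hcon
        apply (hTm x hx).2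
        rw [hU, mem_biUnion]
        refine ⟨j, mem_univ _, ?_⟩
        rw [if_neg hji, mem_biUnion]
        exact ⟨y, hy, mem_nn.2 ⟨(hTm x hx).1, hcon⟩⟩
      refine ⟨Function.update C i T, fun j => ?_, fun j hj => ?_, fun j => ?_, ?_⟩
      · by_cases hji : j = i
        · subst hji
          rw [Function.update_self]
          exact fun x hx => (hTm x hx).1
        · rw [Function.update_of_ne hji]
          exact hC1 j
      · by_cases hji : j = i
        · subst hji
          rw [Function.update_self]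
          exact hTc
        · rw [Function.update_of_ne hji]
          apply hC2
          have : j.val ≠ m := fun h => hji (Fin.ext (h.trans hi.symm))
          omega
      · by_cases hji : j = i
        · subst hji
          rw [Function.update_self]
          exact hTc.le
        · rw [Function.update_of_ne hji]
          exact hC3 j
      · intro a b hab x hx y hy
        by_cases hai : a = i
        · subst hai
          rw [Function.update_self] at hx
          rw [Function.update_of_ne hab.symm] at hy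
          exact (hTadj x hx b hab.symm y hy).symm
        · rw [Function.update_of_ne hai] at hx
          by_cases hbi : b = i
          · subst hbi
            rw [Function.update_self] at hy
            exact hTadj y hy a hai x hx
          · rw [Function.update_of_ne hbi] at hy
            exact hC4 a b hab x hx y hy
  obtain ⟨C, h1, h2, h3, h4⟩ := key r le_rfl
  exact ⟨C, h1, fun i => h2 i i.isLt, h4⟩

/-- a vertex with many neighbours in every class -/
theorem many_in_all {W : Type*} [Fintype W] {r : ℕ} (F : SimpleGraph W) (G : SimpleGraph V)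
    (κ : W → Fin r) (c : W) (K : Finset W) (hκ : StarCol F κ c K) (A : Fin r → Finset V)
    (μ q : ℕ) (hq : Fintype.card W = q)
    (hA : ∀ i j, i ≠ j → ∀ x ∈ A i, (nn G (A j) x).card ≤ μ) (v : V)
    (hv : ∀ i, 2 * q + r * (2 * q * μ) ≤ (nb G (A i) v).card) : F.IsContained G := by
  obtain ⟨C, hC1, hC2, hC3⟩ := greedy_r G r (2 * q) μ (fun i => nb G (A i) v)
    (fun i j hij x hx => (nn_mono (fun y hy => (mem_nb.1 hy).1) x).trans
      (hA i j hij x (mem_nb.1 hx).1)) hv
  have hadj : ∀ i, ∀ y ∈ C i, G.Adj v y := fun i y hy => (mem_nb.1 (hC1 i hy)).2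
  obtain ⟨S, hS, hSc⟩ := exists_subset_card_eq (s := C (κ c)) (n := q) (by rw [hC2]; omega)
  have hKq : K.card ≤ q := hq ▸ card_le_univ K
  refine emb_r F G κ c K hκ (κ c) (fun i => if i = κ c then C i \ S else C i) ?_ ?_ v S
    (hKq.trans hSc.ge) (fun x hx => hadj _ x (hS hx)) ?_ ?_ ?_ ?_
  · intro i
    by_cases hi : i = κ c
    · subst hi
      rw [if_pos rfl, card_sdiff_of_subset hS, hC2, hSc, hq]
      omega
    · rw [if_neg hi, hC2, hq]
      omega
  · intro i j hij x hx y hy
    refine hC3 i j hij x ?_ y ?_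
    · by_cases hi : i = κ c
      · rw [if_pos hi] at hx
        exact (mem_sdiff.1 hx).1
      · rwa [if_neg hi] at hx
    · by_cases hi : j = κ c
      · rw [if_pos hi] at hy
        exact (mem_sdiff.1 hy).1
      · rwa [if_neg hi] at hy
  · rw [if_pos rfl]
    intro h
    exact (hadj _ v (mem_sdiff.1 h).1).ne rfl
  · intro x hx
    rw [if_pos rfl]
    exact fun h => (mem_sdiff.1 h).2 hx
  · intro j hj y hy
    rw [if_neg hj] at hy
    exact hadj j y hy
  · intro x hx j hj y hy
    rw [if_neg hj] at hy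
    exact hC3 (κ c) j hj.symm x (hS hx) y hy

end MP_0a9719_co_RR
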