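import Pool.Agent.Lib.MP_0a9719_co_RR.BlkR
import Pool.Agent.Lib.MP_0a9719_co_FR.Bnd

/-! MP_0a9719_co, `r` classes: the upper bound `ex(n, F) ≤ (1-1/r) n^2/2 + (k-1) n/2 + C`. -/

namespace MP_0a9719_co_RR

open Finset

/-- Erdős–Stone in the form used here -/
theorem es_blocks (r T : ℕ) (hr : 2 ≤ r) : ∃ N : ℕ, ∀ (V : Type) [Fintype V] [DecidableEq V]
    (G : SimpleGraph V), N ≤ Fintype.card V →
    (∀ v, r * (nn G univ v).card < Fintype.card V) →
    ∃ B : Fin r → Finset V, (∀ i, (B i).card = T) ∧
      ∀ i j, i ≠ j → ∀ x ∈ B i, ∀ y ∈ B j, G.Adj x y := by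
  classical
  obtain ⟨r', rfl⟩ : ∃ r', r = r' + 1 := ⟨r - 1, by omega⟩
  have hr' : 0 < r' := by omega
  have hr1 : (0 : ℝ) < (r' : ℝ) := by exact_mod_cast hr'
  have hε : (0 : ℝ) < 1 / (r' : ℝ) - 1 / ((r' : ℝ) + 1) := by
    rw [sub_pos]
    exact one_div_lt_one_div_of_lt hr1 (by linarith)
  obtain ⟨N, hN⟩ := Filter.eventually_atTop.1
    (SimpleGraph.eventually_completeEquipartiteGraph_isContained_of_minDegree hε r' T)
  refine ⟨max N 1, fun V _ _ G hc hdeg => ?_⟩
  obtain ⟨n, hn⟩ : ∃ n, n = Fintype.card V := ⟨_, rfl⟩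
  let e : V ≃ Fin n := (Fintype.equivFin V).trans (finCongr hn.symm)
  let G' : SimpleGraph (Fin n) := G.comap e.symm
  have hdeg' : ∀ a, (nb G univ (e.symm a)).card ≤ G'.degree a := by
    intro a
    rw [← SimpleGraph.card_neighborFinset_eq_degree]
    apply card_le_card_of_injOn e
    · intro y hy
      have h1 : G.Adj (e.symm a) y := (mem_nb.1 (mem_coe.1 hy)).2
      rw [mem_coe, SimpleGraph.mem_neighborFinset]
      change G.Adj (e.symm a) (e.symm (e y))
      rwa [e.symm_apply_apply]
    · exact e.injective.injOn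
  have hn1 : 1 ≤ n := hn ▸ (le_max_right N 1).trans hc
  have : Nonempty (Fin n) := ⟨⟨0, hn1⟩⟩
  have hmin : (G'.minDegree : ℝ) ≥ (1 - 1 / (r' : ℝ) + (1 / (r' : ℝ) - 1 / ((r' : ℝ) + 1))) * n := by
    obtain ⟨a, ha⟩ := G'.exists_minimal_degree_vertex
    rw [ha]
    have h1 := hdeg' a
    have h2 := nb_nn G univ (e.symm a)
    have h3 := hdeg (e.symm a)
    rw [card_univ] at h2
    rw [← hn] at h2 h3
    have h4 : (r' + 1) * n ≤ (r' + 1) * G'.degree a + n := by
      have h5 : (r' + 1) * n ≤ (r' + 1) * (G'.degree a + (nn G univ (e.symm a)).card) :=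
        Nat.mul_le_mul_left _ (by omega)
      rw [mul_add] at h5
      omega
    have h6 : ((r' : ℝ) + 1) * n ≤ ((r' : ℝ) + 1) * (G'.degree a : ℝ) + n := by exact_mod_cast h4
    have h7 : (1 - 1 / (r' : ℝ) + (1 / (r' : ℝ) - 1 / ((r' : ℝ) + 1))) * n =
        (r' : ℝ) * n / ((r' : ℝ) + 1) := by
      field_simp
      ring
    rw [h7, ge_iff_le, div_le_iff₀ (by positivity)]
    linarith
  obtain ⟨f⟩ := hN n (hn ▸ (le_max_left N 1).trans hc) hmin
  refine ⟨fun i => univ.image (fun t : Fin T => e.symm (f (i, t))), fun i => ?_, ?_⟩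
  · rw [card_image_of_injective, card_univ, Fintype.card_fin]
    intro s t hst
    have h1 := f.injective (e.symm.injective hst)
    exact (Prod.ext_iff.1 h1).2
  · intro i j hij x hx y hy
    obtain ⟨s, -, rfl⟩ := mem_image.1 hx
    obtain ⟨t, -, rfl⟩ := mem_image.1 hy
    have h1 : (SimpleGraph.completeEquipartiteGraph (r' + 1) T).Adj (i, s) (j, t) := hij
    exact f.toHom.map_adj h1

theorem dense_r {W : Type*} [Fintype W] {r : ℕ} (hr : 2 ≤ r) (F : SimpleGraph W) (κ : W → Fin r)
    (c : W) (K : Finset W) (hκ : StarCol F κ c K) (k : ℕ) (hk : 1 ≤ k) (hK : K.card ≤ k) :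
    ∃ N : ℕ, ∀ (V : Type) [Fintype V] [DecidableEq V] (G : SimpleGraph V), F.Free G →
      N ≤ Fintype.card V → (∀ v, r * (nn G univ v).card < Fintype.card V) →
      r * ∑ v, (nb G univ v).card + (Fintype.card V) ^ 2 ≤
        r * (Fintype.card V) ^ 2 + r * ((k - 1) * Fintype.card V) := by
  classical
  obtain ⟨q, hq⟩ : ∃ q, q = Fintype.card W := ⟨_, rfl⟩
  have hq0 : 0 < q := hq ▸ Fintype.card_pos_iff.2 ⟨c⟩
  obtain ⟨P, hP⟩ : ∃ P, P = r * q + (k + 1) * (1 + 2 * r * q) := ⟨_, rfl⟩
  obtain ⟨Q, hQ⟩ : ∃ Q, Q = q + r * q * k + (k + 1) * (2 * q + 2 * r * q * k) + (k + 1) :=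
    ⟨_, rfl⟩
  obtain ⟨m, hm⟩ : ∃ m, m = 4 * q * r * (P + 1) := ⟨_, rfl⟩
  obtain ⟨N, hN⟩ := es_blocks r ((k + 1) * m + q + (k + 1)) hr
  refine ⟨max N (2 * r * ((P + 1) * (r * k) + Q)), fun V _ _ G hF hc hdeg => ?_⟩
  obtain ⟨B, hB, hBB⟩ := hN V G ((le_max_left _ _).trans hc) hdeg
  obtain ⟨n, hn⟩ : ∃ n, Fintype.card V = n := ⟨_, rfl⟩
  have hn2 : 2 * r * ((P + 1) * (r * k) + Q) ≤ n := hn ▸ (le_max_right _ _).trans hc
  have hdeg2 : ∀ v, r * (nn G univ v).card < n := fun v => hn ▸ hdeg v
  obtain ⟨A, b, hb, hdisj, hA, hlow⟩ := blocks_r F G κ c K hκ hF B _ q k m n (by omega) hq.symm hK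
    hn hB hBB hdeg2 le_rfl
  obtain ⟨β, hβ⟩ : ∃ β, β = b + r * k := ⟨_, rfl⟩
  have hb2 : 2 * r * (P + 1) * b ≤ n := by
    have h1 : 2 * q * (2 * r * (P + 1) * b) ≤ 2 * q * n := by
      refine le_trans (le_of_eq ?_) hb
      rw [hm]
      ring
    exact Nat.le_of_mul_le_mul_left h1 (by omega)
  have hβn : (P + 1) * β + Q ≤ n / r := by
    rw [Nat.le_div_iff_mul_le (by omega)]
    have h1 : 2 * (((P + 1) * β + Q) * r) = 2 * r * (P + 1) * b +
        2 * r * ((P + 1) * (r * k) + Q) := by
      rw [hβ]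
      ring
    omega
  have hβ2 : β + (P * β + Q) ≤ n / r := by
    refine le_trans (le_of_eq ?_) hβn
    ring
  have hnn : ∀ v, (nn G univ v).card ≤ n / r := by
    intro v
    rw [Nat.le_div_iff_mul_le (by omega), mul_comm]
    exact (hdeg2 v).le
  have hAlow : ∀ i, n / r ≤ (A i).card + β := by
    intro i
    apply Nat.div_le_of_le_mul
    rw [hβ]
    exact hlow i
  obtain ⟨cl, hcl⟩ := classes_r F G κ c K hκ hF A (β + k) q k (n / r - β) β
    (2 * q + r * (2 * q * (β + k))) hq.symm hK (by rw [hβ]; exact hA)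
    (fun i => by have := hAlow i; omega) (fun v => by have := hnn v; omega) hdisj rfl (by
      have h1 : q + r * (q * (β + k)) + (k + 1) * (β + (2 * q + r * (2 * q * (β + k)))) + (k + 1) =
          P * β + Q := by
        rw [hP, hQ]
        ring
      rw [h1]
      omega)
  exact sum_r G k hk cl hcl

theorem ind_r {W : Type*} [Fintype W] {r : ℕ} (hr : 2 ≤ r) (F : SimpleGraph W) (κ : W → Fin r)
    (c : W) (K : Finset W) (hκ : StarCol F κ c K) (k : ℕ) (hk : 2 ≤ k) (hK : K.card ≤ k) :
    ∃ C : ℕ, ∀ (V : Type) [Fintype V] (G : SimpleGraph V), F.Free G →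
      r * (2 * G.edgeSet.ncard) + (Fintype.card V) ^ 2 ≤
        r * (Fintype.card V) ^ 2 + r * ((k - 1) * Fintype.card V) + C := by
  classical
  obtain ⟨N, hN⟩ := dense_r hr F κ c K hκ k (by omega) hK
  refine ⟨r * N ^ 2 + N ^ 2, fun V _ G hG => ?_⟩
  have hcard : ∀ (X : Finset V) (x : V), (X.filter (G.Adj x)).card = (nb G X x).card := by
    intro X x
    have h1 : X.filter (G.Adj x) = nb G X x := by
      ext y
      rw [mem_filter, mem_nb]
    rw [h1]
  have key : ∀ n, ∀ X : Finset V, X.card = n →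
      r * ∑ x ∈ X, (X.filter (G.Adj x)).card + n ^ 2 ≤
        r * n ^ 2 + r * ((k - 1) * n) + (r * N ^ 2 + N ^ 2) := by
    intro n
    induction n with
    | zero =>
      intro X hX
      rw [card_eq_zero.1 hX]
      simp
    | succ n ih =>
      intro X hX
      by_cases hn : n + 1 < N
      · have h1 : ∑ x ∈ X, (X.filter (G.Adj x)).card ≤ X.card * X.card := by
          refine (sum_le_card_nsmul X _ X.card fun x _ => card_filter_le _ _).trans ?_
          rw [smul_eq_mul]
        rw [hX] at h1
        have h2 : (n + 1) * (n + 1) ≤ N ^ 2 := by nlinarith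
        have h3 : r * ∑ x ∈ X, (X.filter (G.Adj x)).card ≤ r * N ^ 2 :=
          Nat.mul_le_mul_left _ (h1.trans h2)
        have h4 : (n + 1) ^ 2 = (n + 1) * (n + 1) := by ring
        rw [← h4] at h2
        generalize r * N ^ 2 = z1 at *
        generalize N ^ 2 = z2 at *
        generalize r * (n + 1) ^ 2 = z3 at *
        generalize (n + 1) ^ 2 = z4 at *
        omega
      · by_cases hv : ∃ v ∈ X, n + 1 ≤ r * (nn G X v).card
        · obtain ⟨v, hv, hvd⟩ := hv
          have h4 := MP_0a9719_co.sum_deg_insert G (X.erase v) v (notMem_erase v X)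
          rw [insert_erase hv] at h4
          have h5 := ih (X.erase v) (by rw [card_erase_of_mem hv, hX]; rfl)
          rw [h4, hcard X v]
          have h6 := nb_nn G X v
          rw [hX] at h6
          have h7 : r * (nb G X v).card + r * (nn G X v).card = r * (n + 1) := by
            rw [← mul_add, h6]
          have h8 : r * (n + 1) ^ 2 = r * n ^ 2 + 2 * (r * n) + r := by ring
          have h9 : r * ((k - 1) * (n + 1)) = r * ((k - 1) * n) + r * (k - 1) := by ring
          have h10 : (n + 1) ^ 2 = n ^ 2 + 2 * n + 1 := by ring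
          have h11 : r * (n + 1) = r * n + r := by ring
          have h12 : r * 1 ≤ r * (k - 1) := Nat.mul_le_mul_left _ (by omega)
          have h13 : r * (2 * (nb G X v).card + ∑ x ∈ X.erase v,
              ((X.erase v).filter (G.Adj x)).card) = 2 * (r * (nb G X v).card) +
              r * ∑ x ∈ X.erase v, ((X.erase v).filter (G.Adj x)).card := by ring
          rw [h8, h9, h10, h13]
          rw [h11] at h7
          clear h4 h8 h9 h10 h13
          generalize r * ∑ x ∈ X.erase v, ((X.erase v).filter (G.Adj x)).card = s at *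
          generalize r * ((k - 1) * n) = z0 at *
          generalize r * (k - 1) = z5 at *
          generalize r * N ^ 2 = z1 at *
          generalize N ^ 2 = z2 at *
          generalize r * n ^ 2 = z3 at *
          generalize n ^ 2 = z4 at *
          generalize r * n = z6 at *
          generalize r * (nb G X v).card = z7 at *
          generalize r * (nn G X v).card = z8 at *
          omega
        · push Not at hv
          let H : SimpleGraph X := G.comap (fun x : X => (x : V))
          have hnb : ∀ x : X, (nb H univ x).card = (nb G X x).card := by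
            intro x
            apply card_nbij (fun y : X => (y : V))
            · intro y hy
              have hy' := mem_nb.1 (mem_coe.1 hy)
              exact mem_coe.2 (mem_nb.2 ⟨y.2, hy'.2⟩)
            · intro y _ z _ h
              exact Subtype.ext h
            · intro y hy
              have hy' := mem_nb.1 (mem_coe.1 hy)
              exact ⟨⟨y, hy'.1⟩, mem_coe.2 (mem_nb.2 ⟨mem_univ _, hy'.2⟩), rfl⟩
          have hcX : Fintype.card X = n + 1 := by rw [Fintype.card_coe, hX]
          have hnnX : ∀ x : X, (nn H univ x).card = (nn G X x).card := by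
            intro x
            have h1 := nb_nn H univ x
            have h2 := nb_nn G X x
            rw [card_univ, hcX] at h1
            rw [hX] at h2
            have h3 := hnb x
            omega
          have hHF : F.Free H := by
            rintro ⟨f⟩
            refine hG ⟨⟨⟨fun w => (f w : V), fun h => f.toHom.map_adj h⟩, fun a b h => ?_⟩⟩
            exact f.injective (Subtype.ext h)
          have h4 := hN X H hHF (by rw [hcX]; omega) (fun x => by
            rw [hcX, hnnX]
            exact hv x x.2)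
          rw [hcX] at h4
          have h5 : ∑ x : X, (nb H univ x).card = ∑ x ∈ X, (X.filter (G.Adj x)).card := by
            rw [← sum_coe_sort X (fun x => (X.filter (G.Adj x)).card)]
            exact sum_congr rfl (fun x _ => (hnb x).trans (hcard X x).symm)
          rw [h5] at h4
          omega
  have h1 := key _ univ rfl
  have h2 := G.sum_degrees_eq_twice_card_edges
  have h3 : ∀ x, G.degree x = (univ.filter (G.Adj x)).card := by
    intro x
    rw [← SimpleGraph.card_neighborFinset_eq_degree, SimpleGraph.neighborFinset_eq_filter]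
  simp only [h3] at h2
  rw [h2, card_univ] at h1
  rw [Set.ncard_eq_toFinset_card']
  exact h1

end MP_0a9719_co_RR
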