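import Pool.Agent.Lib.MP_0a9719_co_RR.NumR
import Pool.Agent.Lib.MP_0a9719_co_RR.ExR

/-! MP_0a9719_co, `r` colours: graphs which become `r`-colourable by the deletion of `k` edges at one
vertex. -/

namespace MP_0a9719_co

open _root_.MP_0a9719_co_RR

theorem main_col {W : Type*} [Finite W] (F : SimpleGraph W) (A : W → W → Prop) (hA : IsOr F A)
    (r k : ℕ) (hr : 2 ≤ r) (hk : 2 ≤ k) (c : W) (K : Set W) (hKk : K.ncard ≤ k)
    (hbip : (F.deleteEdges {e | ∃ x ∈ K, e = s(c, x)}).Colorable r)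
    (h : ∀ χ : W → Fin r, ∃ v, k ≤ {u | χ u = χ v ∧ A v u}.ncard) : PropertyP F := by
  classical
  have : Fintype W := Fintype.ofFinite W
  obtain ⟨κ⟩ := hbip
  have hstar : StarCol F (fun w => κ w) c (K.toFinset.erase c) := by
    refine ⟨Finset.notMem_erase _ _, fun u v huv h1 => ?_⟩
    by_contra hcon
    refine κ.valid (v := u) (w := v) ?_ h1
    rw [SimpleGraph.deleteEdges_adj]
    refine ⟨huv, fun h2 => hcon ?_⟩
    obtain ⟨x, hx, h2⟩ := h2
    rw [Sym2.eq_iff] at h2
    rcases h2 with ⟨h3, h4⟩ | ⟨h3, h4⟩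
    · refine Or.inl ⟨h3, ?_⟩
      rw [Finset.mem_erase, Set.mem_toFinset, h4]
      refine ⟨?_, hx⟩
      intro h5
      exact huv.ne (by rw [h3, h4, h5])
    · refine Or.inr ⟨h4, ?_⟩
      rw [Finset.mem_erase, Set.mem_toFinset, h3]
      refine ⟨?_, hx⟩
      intro h5
      exact huv.ne (by rw [h4, h3, h5])
  have hcard : (K.toFinset.erase c).card ≤ k := by
    refine (Finset.card_erase_le).trans ?_
    rwa [← Set.ncard_eq_toFinset_card']
  exact main_R F A hA r k (by omega) hk (ind_r hr F _ c _ hstar k hk hcard) h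

end MP_0a9719_co
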