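import Pool.Agent.Lib.MP_0a9719_co.Defs

/-! MP_0a9719_co, `r` classes: the complete multipartite graphs `K_{1,k,t_2,..,t_r}`. -/

namespace MP_0a9719_co_RR

open MP_0a9719_co

theorem mult_isOr {W : Type*} (F : SimpleGraph W) (r : ℕ) (p : W → Fin (r + 1))
    (hp : ∀ u v, F.Adj u v ↔ p u ≠ p v) : IsOr F (fun u v => p u < p v) := by
  intro u v
  refine ⟨?_, fun h => lt_asymm h.1 h.2⟩
  rw [hp]
  exact lt_or_lt_iff_ne.symm

theorem mult_bip {W : Type*} (F : SimpleGraph W) (r : ℕ) (hr : 2 ≤ r) (p : W → Fin (r + 1))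
    (hp : ∀ u v, F.Adj u v ↔ p u ≠ p v) (c : W) (hc : {u | p u = 0} = {c}) :
    (F.deleteEdges {e | ∃ x ∈ {u | p u = 1}, e = s(c, x)}).Colorable r := by
  have hv1 : ((1 : Fin (r + 1)) : ℕ) = 1 := by
    rw [Fin.val_one']
    exact Nat.mod_eq_of_lt (by omega)
  refine ⟨SimpleGraph.Coloring.mk (fun w => (⟨(p w).val - 1, by
    have := (p w).isLt
    omega⟩ : Fin r)) ?_⟩
  intro u v huv h
  rw [SimpleGraph.deleteEdges_adj, hp] at huv
  obtain ⟨h1, h2⟩ := huv
  have h3 : (p u).val - 1 = (p v).val - 1 := congrArg Fin.val h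
  have h4 : (p u).val ≠ (p v).val := fun h4 => h1 (Fin.ext h4)
  have hc0 : ∀ w, (p w).val = 0 → w = c := by
    intro w hw
    have : w ∈ {u | p u = 0} := Fin.ext hw
    rw [hc] at this
    exact this
  apply h2
  rcases Nat.lt_or_gt_of_ne h4 with h5 | h5
  · refine ⟨v, Fin.ext (by rw [hv1]; omega), ?_⟩
    rw [hc0 u (by omega)]
  · refine ⟨u, Fin.ext (by rw [hv1]; omega), ?_⟩
    rw [hc0 v (by omega), Sym2.eq_swap]

theorem mult_col {W : Type*} [Finite W] (r k : ℕ) (hr : 2 ≤ r) (hk : 1 ≤ k)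
    (p : W → Fin (r + 1)) (c : W) (hc : p c = 0) (h1 : k ≤ {u | p u = 1}.ncard)
    (h2 : ∀ i : Fin (r + 1), 2 ≤ i.val → r * (k - 1) + 1 ≤ {u | p u = i}.ncard)
    (χ : W → Fin r) : ∃ v, k ≤ {u | χ u = χ v ∧ p v < p u}.ncard := by
  classical
  have : Fintype W := Fintype.ofFinite W
  have hv1 : ((1 : Fin (r + 1)) : ℕ) = 1 := by
    rw [Fin.val_one']
    exact Nat.mod_eq_of_lt (by omega)
  by_contra hcon
  push Not at hcon
  -- a colour used at least `k` times in each class `i ≥ 2`
  have hcol : ∀ i : Fin (r + 1), 2 ≤ i.val → ∃ a, k ≤ {u | p u = i ∧ χ u = a}.ncard := by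
    intro i hi
    have h3 := h2 i hi
    obtain ⟨a, -, ha⟩ := Finset.exists_lt_card_fiber_of_mul_lt_card_of_maps_to
      (s := Finset.univ.filter (fun u => p u = i)) (t := (Finset.univ : Finset (Fin r)))
      (f := χ) (n := k - 1) (fun _ _ => Finset.mem_univ _) (by
        rw [Finset.card_univ, Fintype.card_fin]
        have h4 : {u | p u = i}.ncard = (Finset.univ.filter (fun u => p u = i)).card := by
          rw [Set.ncard_eq_toFinset_card']
          simp
        omega)
    refine ⟨a, ?_⟩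
    have h4 : {u | p u = i ∧ χ u = a}.ncard =
        ((Finset.univ.filter (fun u => p u = i)).filter (fun u => χ u = a)).card := by
      rw [Set.ncard_eq_toFinset_card']
      congr 1
      ext u
      simp
    omega
  -- no vertex of an earlier class has this colour
  have hno : ∀ j : Fin (r + 1), ∀ a, k ≤ {u | p u = j ∧ χ u = a}.ncard →
      ∀ v, p v < j → χ v ≠ a := by
    intro j a ha v hv hva
    have h3 := hcon v
    have h4 : {u | p u = j ∧ χ u = a} ⊆ {u | χ u = χ v ∧ p v < p u} := by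
      rintro u ⟨hu1, hu2⟩
      exact ⟨hu2.trans hva.symm, hu1 ▸ hv⟩
    have h5 := Set.ncard_le_ncard h4 (Set.toFinite _)
    omega
  have hy : ∃ y, p y = 1 ∧ χ y ≠ χ c := by
    by_contra h
    push Not at h
    refine hno 1 (χ c) ?_ c (by rw [hc, Fin.lt_def, hv1]; simp) rfl
    refine h1.trans (Set.ncard_le_ncard ?_ (Set.toFinite _))
    intro u hu
    exact ⟨hu, h u hu⟩
  obtain ⟨y, hy1, hy2⟩ := hy
  -- a vertex `v i` of every class
  have hex : ∀ i : Fin (r + 1), ∃ v, p v = i ∧
      (i.val = 0 → v = c) ∧ (i.val = 1 → v = y) ∧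
      (2 ≤ i.val → k ≤ {u | p u = i ∧ χ u = χ v}.ncard) := by
    intro i
    rcases Nat.lt_or_ge i.val 2 with hi | hi
    · rcases Nat.lt_or_ge i.val 1 with hi' | hi'
      · exact ⟨c, by rw [hc]; exact Fin.ext (by simp; omega), fun _ => rfl, fun h => by omega,
          fun h => by omega⟩
      · exact ⟨y, by rw [hy1]; exact Fin.ext (by rw [hv1]; omega), fun h => by omega, fun _ => rfl,
          fun h => by omega⟩
    · obtain ⟨a, ha⟩ := hcol i hi
      have hne : {u | p u = i ∧ χ u = a}.Nonempty := by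
        rw [← Set.ncard_pos (Set.toFinite _)]
        omega
      obtain ⟨v, hv1, hv2⟩ := hne
      exact ⟨v, hv1, fun h => by omega, fun h => by omega, fun _ => by rw [hv2]; exact ha⟩
  choose v hvp hv0 hv1' hv2 using hex
  have hninj : ¬ Function.Injective (fun i => χ (v i)) := by
    intro h
    have := Fintype.card_le_of_injective _ h
    simp at this
  apply hninj
  intro i j hij
  have hij' : χ (v i) = χ (v j) := hij
  by_contra hne
  have key : ∀ i j : Fin (r + 1), i < j → χ (v i) = χ (v j) → False := by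
    intro i j hlt hc2
    rcases Nat.lt_or_ge j.val 2 with hj | hj
    · have hi0 : i.val = 0 := by
        have := Fin.lt_def.1 hlt
        omega
      have hj1 : j.val = 1 := by
        have := Fin.lt_def.1 hlt
        omega
      rw [hv0 i hi0, hv1' j hj1] at hc2
      exact hy2 hc2.symm
    · exact hno j (χ (v j)) (hv2 j hj) (v i) (by rw [hvp]; exact hlt) hc2
  rcases lt_or_gt_of_ne hne with h | h
  · exact key i j h hij'
  · exact key j i h hij'.symm

end MP_0a9719_co_RR
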