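import Pool.Agent.Lib.MP_0a9719_co_RR.FinR
import Pool.Agent.Lib.MP_0a9719_co_RR.MulD

/-! MP_0a9719_co, `r` classes: the complete `(r+1)`-partite graphs with classes of sizes `1`, `k` and
at least `r(k-1)+1` have property (P). -/

namespace MP_0a9719_co_RR

open MP_0a9719_co

theorem multipartite {W : Type*} [Finite W] (F : SimpleGraph W) (r k : ℕ) (hr : 2 ≤ r) (hk : 2 ≤ k)
    (p : W → Fin (r + 1)) (hp : ∀ u v, F.Adj u v ↔ p u ≠ p v) (h0 : {u | p u = 0}.ncard = 1)
    (h1 : {u | p u = 1}.ncard = k)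
    (h2 : ∀ i : Fin (r + 1), 2 ≤ i.val → r * (k - 1) + 1 ≤ {u | p u = i}.ncard) :
    PropertyP F := by
  obtain ⟨c, hc⟩ := Set.ncard_eq_one.1 h0
  have hc0 : p c = 0 := by
    have : c ∈ {u | p u = 0} := by rw [hc]; rfl
    exact this
  exact main_col F (fun u v => p u < p v) (mult_isOr F r p hp) r k hr hk c {u | p u = 1} h1.le
    (mult_bip F r hr p hp c hc) (mult_col r k hr (by omega) p c hc0 h1.ge h2)

end MP_0a9719_co_RR
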